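import Pool.Agent.helper84.NR.SpecW

set_option autoImplicit false

namespace Pool.Agent.helper84.NR

open scoped Classical
open Finset

theorem CXE (hWLKW : WLKW_stmt) (hVYSW : VYSW_stmt) : CXE_stmt := by
  intro V F _ _ M x y J hT q hq
  obtain ⟨f0, hf0⟩ : ∃ f0, Quot.mk (lk M (inU M x y J)) f0 = q := Quot.exists_rep q
  obtain ⟨B0, hB0⟩ := hT.j0
  have hB0y := hT.jy B0 hB0
  by_contra hno
  have hno' : ∀ e, cx M x e → ¬ Has M x y J q e := fun e h1 h2 => hno ⟨e, h1, h2⟩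
  have hcl : ∀ e f g, OnE M.toCyc f e → OnE M.toCyc g e →
      f ∈ {f | Quot.mk (lk M (inU M x y J)) f = q} →
      g ∈ {f | Quot.mk (lk M (inU M x y J)) f = q} := by
    intro e f g hf hg hfq
    have hfq' : Quot.mk (lk M (inU M x y J)) f = q := hfq
    by_cases hU : inU M x y J e
    · exfalso
      have hHas : Has M x y J q e := ⟨f, hf, hfq'⟩
      rcases hU with hc | ⟨B, hB, k, hk, rfl⟩
      · exact hno' e hc hHas
      · obtain ⟨k1, hk1, _, hgp, hH1⟩ := hWLKW V F M x y J hT q hq B hB k hk hHas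
        have hin : inb M x y B k1 := ⟨⟨k1, le_rfl, hgp.1⟩, hgp.2.1⟩
        obtain ⟨A, hA⟩ := hgp.1.2.2
        obtain ⟨e, _, hce, hHe⟩ := hVYSW V F M x y J hT q hq B hB k1 hin (ww M y B k1)
          (Sym2.mem_mk_left _ _) ⟨A, hA⟩ hH1
        exact hno' e hce hHe
    · have h : Quot.mk (lk M (inU M x y J)) f = Quot.mk (lk M (inU M x y J)) g :=
        Quot.sound ⟨e, hU, hf, hg⟩
      show Quot.mk (lk M (inU M x y J)) g = q
      rw [← h]
      exact hfq'
  exact hq.2 B0 hB0y (M.conn _ hcl f0 B0 hf0)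

end Pool.Agent.helper84.NR
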