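import Pool.Agent.helper84.NR.SpecW

set_option autoImplicit false

namespace Pool.Agent.helper84.NR

open scoped Classical
open Finset

lemma RHO_c1 {V F : Type} [Fintype V] [Fintype F] (P : F → V → Prop)
    [DecidablePred (fun p : F × V => P p.1 p.2)] [∀ A, DecidablePred (fun s => P A s)] :
    (univ.filter (fun p : F × V => P p.1 p.2)).card = ∑ A, (univ.filter (fun s => P A s)).card := by
  simp only [Finset.card_filter, Fintype.sum_prod_type]

lemma RHO_c2 {V F : Type} [Fintype V] [Fintype F] (P : F → V → Prop)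
    [DecidablePred (fun p : F × V => P p.1 p.2)] [∀ s, DecidablePred (fun A => P A s)] :
    (univ.filter (fun p : F × V => P p.1 p.2)).card = ∑ s, (univ.filter (fun A => P A s)).card := by
  simp only [Finset.card_filter, Fintype.sum_prod_type_right]

/-- the edge of `A` at the neighbour `s` of `x` which does not contain `x` is unique -/
lemma RHO_edge {V F : Type} (M : PMap V F) (x s : V) (A : F) (hA : OnV M.toCyc A x)
    (hs : Adj M.toCyc x s) (hAs : OnV M.toCyc A s) (e e' : Sym2 V) (h1 : s ∈ e) (h2 : x ∉ e)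
    (h3 : OnE M.toCyc A e) (h1' : s ∈ e') (h2' : x ∉ e') (h3' : OnE M.toCyc A e') : e = e' := by
  have hxs : OnE M.toCyc A s(x, s) := (h_EDG V F M).2 A x s hs hA hAs
  have hne : x ≠ s := ((h_EDG V F M).1 A x s hxs).2.2
  obtain ⟨k0, hk⟩ := hA
  obtain ⟨i1, i2, i3, i4, i5⟩ := h_IDX V F M.toCyc A k0
  have ht := M.three A
  obtain ⟨c, hc, hcs⟩ := i2 s hAs
  have hc0 : c ≠ 0 := by
    rintro rfl
    rw [add_zero, hk] at hcs
    exact hne hcs
  have hxs' : OnE M.toCyc A s(M.bd A (k0 + 0), M.bd A (k0 + c)) := by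
    rw [add_zero, hk, hcs]
    exact hxs
  have key : ∀ e : Sym2 V, s ∈ e → x ∉ e → OnE M.toCyc A e →
      (c = 1 ∧ e = s(M.bd A (k0 + 1), M.bd A (k0 + 1 + 1))) ∨
      (c = M.len A - 1 ∧ e = s(M.bd A (k0 + (M.len A - 2)), M.bd A (k0 + (M.len A - 2) + 1))) := by
    intro e he hxe hAe
    obtain ⟨a, ha, rfl⟩ := i3 e hAe
    rw [Sym2.mem_iff] at he
    have hx0 : a ≠ 0 := by
      rintro rfl
      apply hxe
      rw [add_zero, hk]
      exact Sym2.mem_mk_left _ _
    have hxl : a + 1 ≠ M.len A := by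
      intro h
      apply hxe
      have : k0 + a + 1 = k0 + M.len A := by omega
      rw [this, i5, hk]
      exact Sym2.mem_mk_right _ _
    have hca : c = a ∨ c = a + 1 := by
      rcases he with he | he
      · left
        exact i1 c a hc ha (by rw [hcs]; exact he)
      · right
        exact i1 c (a + 1) hc (by omega) (by rw [hcs]; exact he)
    rcases i4 0 c (by omega) hc hxs' with h | ⟨_, h⟩
    · left
      have hc1 : c = 1 := by omega
      refine ⟨hc1, ?_⟩
      have : a = 1 := by omega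
      rw [this]
    · right
      refine ⟨h, ?_⟩
      have : a = M.len A - 2 := by omega
      rw [this]
  rcases key e h1 h2 h3 with ⟨a1, a2⟩ | ⟨a1, a2⟩ <;>
    rcases key e' h1' h2' h3' with ⟨b1, b2⟩ | ⟨b1, b2⟩
  · rw [a2, b2]
  · omega
  · omega
  · rw [a2, b2]

/-- for different pure classes the sets `RL` are disjoint -/
lemma RHO_disj {V F : Type} (M : PMap V F) (x y : V) (J : Finset F)
    (q q' : Quot (lk M (inU M x y J))) (hq : Pure M x y J q) (hq' : Pure M x y J q')
    (A : F) (s : V) (h : RL M x y J q A s) (h' : RL M x y J q' A s) : q = q' := by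
  obtain ⟨hA, hs, hAs, _, e, he1, he2, he3, g, hg1, hg2⟩ := h
  obtain ⟨_, _, _, _, e', he1', he2', he3', g', hg1', hg2'⟩ := h'
  have hee : e = e' := RHO_edge M x s A hA hs hAs e e' he1 he2 he3 he1' he2' he3'
  subst hee
  obtain ⟨g0, _, _, h0⟩ := M.two e A he3
  have hgA : g ≠ A := by
    rintro rfl
    exact hq.1 g hA hg2
  have hgA' : g' ≠ A := by
    rintro rfl
    exact hq'.1 g' hA hg2'
  have e1 : g = g0 := (h0 g hg1).resolve_left hgA
  have e2 : g' = g0 := (h0 g' hg1').resolve_left hgA'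
  rw [← hg2, ← hg2', e1, e2]

/-- counting of the pairs -/
lemma RHO_count {V F : Type} [Fintype V] [Fintype F] (M : PMap V F) (x y : V) :
    (univ.filter (fun p : F × V => p.1 ∈ XM M x y ∧ Adj M.toCyc x p.2 ∧ OnV M.toCyc p.1 p.2 ∧
      p.2 ∉ sX M x y)).card + 2 * (sX M x y).card = 2 * (XM M x y).card := by
  obtain ⟨d1, d2, d3, d4, d5⟩ := h_DEG V F M x
  have hXM : ∀ A, A ∈ XM M x y ↔ OnV M.toCyc A x ∧ ∃ B, OnV M.toCyc B y ∧
      ∃ v, OnV M.toCyc A v ∧ OnV M.toCyc B v := by
    intro A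
    simp [XM]
  have hsX : ∀ s, s ∈ sX M x y ↔ Adj M.toCyc x s ∧ ∃ B, OnV M.toCyc B y ∧ OnV M.toCyc B s := by
    intro s
    simp [sX]
  -- all pairs
  have hD : (univ.filter (fun p : F × V => p.1 ∈ XM M x y ∧ Adj M.toCyc x p.2 ∧
      OnV M.toCyc p.1 p.2)).card = 2 * (XM M x y).card := by
    rw [RHO_c1 (fun A s => A ∈ XM M x y ∧ Adj M.toCyc x s ∧ OnV M.toCyc A s)]
    have : ∀ A : F, (univ.filter (fun s => A ∈ XM M x y ∧ Adj M.toCyc x s ∧
        OnV M.toCyc A s)).card = if A ∈ XM M x y then 2 else 0 := by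
      intro A
      by_cases hA : A ∈ XM M x y
      · rw [if_pos hA]
        have h := d3 A ((hXM A).1 hA).1
        simp only [hA, true_and]
        exact h
      · rw [if_neg hA]
        simp [hA]
    rw [Finset.sum_congr rfl (fun A _ => this A), Finset.sum_ite_mem, Finset.univ_inter,
      Finset.sum_const, smul_eq_mul, mul_comm]
  have hD1 : (univ.filter (fun p : F × V => OnV M.toCyc p.1 x ∧ OnV M.toCyc p.1 p.2 ∧
      p.2 ∈ sX M x y)).card = 2 * (sX M x y).card := by
    rw [RHO_c2 (fun A s => OnV M.toCyc A x ∧ OnV M.toCyc A s ∧ s ∈ sX M x y)]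
    have : ∀ s : V, (univ.filter (fun A => OnV M.toCyc A x ∧ OnV M.toCyc A s ∧
        s ∈ sX M x y)).card = if s ∈ sX M x y then 2 else 0 := by
      intro s
      by_cases hs : s ∈ sX M x y
      · rw [if_pos hs]
        have h := d2 s ((hsX s).1 hs).1
        simp only [hs, and_true]
        exact h
      · rw [if_neg hs]
        simp [hs]
    rw [Finset.sum_congr rfl (fun s _ => this s), Finset.sum_ite_mem, Finset.univ_inter,
      Finset.sum_const, smul_eq_mul, mul_comm]
  have hsplit := Finset.card_filter_add_card_filter_not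
    (s := univ.filter (fun p : F × V => p.1 ∈ XM M x y ∧ Adj M.toCyc x p.2 ∧
      OnV M.toCyc p.1 p.2)) (fun p : F × V => p.2 ∈ sX M x y)
  have hA1 : (univ.filter (fun p : F × V => p.1 ∈ XM M x y ∧ Adj M.toCyc x p.2 ∧
      OnV M.toCyc p.1 p.2)).filter (fun p : F × V => p.2 ∈ sX M x y) =
      univ.filter (fun p : F × V => OnV M.toCyc p.1 x ∧ OnV M.toCyc p.1 p.2 ∧
      p.2 ∈ sX M x y) := by
    ext ⟨A, s⟩
    simp only [mem_filter, mem_univ, true_and]
    constructor
    · rintro ⟨⟨h1, h2, h3⟩, h4⟩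
      exact ⟨((hXM A).1 h1).1, h3, h4⟩
    · rintro ⟨h1, h2, h3⟩
      obtain ⟨h4, B, h5, h6⟩ := (hsX s).1 h3
      exact ⟨⟨(hXM A).2 ⟨h1, B, h5, s, h2, h6⟩, h4, h2⟩, h3⟩
  have hA2 : (univ.filter (fun p : F × V => p.1 ∈ XM M x y ∧ Adj M.toCyc x p.2 ∧
      OnV M.toCyc p.1 p.2)).filter (fun p : F × V => ¬ p.2 ∈ sX M x y) =
      univ.filter (fun p : F × V => p.1 ∈ XM M x y ∧ Adj M.toCyc x p.2 ∧
      OnV M.toCyc p.1 p.2 ∧ p.2 ∉ sX M x y) := by
    ext ⟨A, s⟩
    simp only [mem_filter, mem_univ, true_and]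
    tauto
  rw [hA1, hA2, hD, hD1] at hsplit
  omega

theorem RHO (hRL2 : RL2_stmt) : RHO_stmt := by
  intro V F _ _ M x y J hT
  have hfin : {q | Pure M x y J q ∧ SP M x y J q}.Finite := Set.toFinite _
  rw [Set.ncard_eq_toFinset_card _ hfin]
  have hcount := RHO_count M x y
  have hsum : ∑ _q ∈ hfin.toFinset, 2 ≤ (univ.filter (fun p : F × V => p.1 ∈ XM M x y ∧
      Adj M.toCyc x p.2 ∧ OnV M.toCyc p.1 p.2 ∧ p.2 ∉ sX M x y)).card := by
    calc ∑ _q ∈ hfin.toFinset, 2
        ≤ ∑ q ∈ hfin.toFinset, (univ.filter (fun p : F × V => p.1 ∈ XM M x y ∧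
            RL M x y J q p.1 p.2)).card := by
          apply Finset.sum_le_sum
          intro q hq
          rw [Set.Finite.mem_toFinset] at hq
          exact hRL2 V F M x y J hT q hq.1 hq.2
      _ = (hfin.toFinset.biUnion (fun q => univ.filter (fun p : F × V => p.1 ∈ XM M x y ∧
            RL M x y J q p.1 p.2))).card := by
          rw [Finset.card_biUnion]
          intro q hq q' hq' hne
          rw [Finset.mem_coe, Set.Finite.mem_toFinset] at hq hq'
          refine Finset.disjoint_left.2 ?_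
          rintro ⟨A, s⟩ h1 h2
          simp only [mem_filter, mem_univ, true_and] at h1 h2
          exact hne (RHO_disj M x y J q q' hq.1 hq'.1 A s h1.2 h2.2)
      _ ≤ _ := by
          apply Finset.card_le_card
          intro p hp
          rw [Finset.mem_biUnion] at hp
          obtain ⟨q, _, hp⟩ := hp
          simp only [mem_filter, mem_univ, true_and] at hp ⊢
          obtain ⟨h1, h2, h3, h4, h5, _⟩ := hp
          refine ⟨h1, h3, h4, ?_⟩
          intro h6
          simp only [sX, mem_filter, mem_univ, true_and] at h6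
          exact h5 h6.2
  rw [Finset.sum_const, smul_eq_mul] at hsum
  omega

end Pool.Agent.helper84.NR
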